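import Pool.Agent.Q182.BB4

set_option autoImplicit false

/-!
# Arbitrary maps at the integer parts of almost all multiples of linear forms, unrestricted boxes

`T_1, ..., T_n` are arbitrary invertible measure preserving maps of one probability space (they need not commute or
generate a nilpotent group; they may also coincide), `L_j(m) = ∑ c_jl m_l` are nonzero linear forms in
`m = (m_1, ..., m_k)` with real coefficients. For Lebesgue almost every `(a_1, ..., a_n)` there is a set of full measure
of points `x` such that for ALL shifts `(b_1, ..., b_n)` the averages over the boxes `[1, M_1] × ... × [1, M_k]` of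
`∏ f_j (T_j^⌊a_j L_j(m) + b_j⌋ x)` converge as `min M_l → ∞`, with no restriction on the shape of the boxes. The limit
is the product of the conditional expectations of the `f_j` on the sets invariant under `T_j`.

Proof. The suspension flows of the `T_j` (with independent heights `s_j`) act on `[0,1)^n × X`; the theorem on almost
all times of arbitrary flows (`Pool.Agent.Y957.MC.boxes_Linf`, the engine of the starting result `GenericLinearForms`)
gives convergence with `⌊a_j L_j(m) + s_j⌋` for almost all heights `s` (`BB1`, `BB2`, `flow_step`). Since `a_j c_jl` is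
irrational for some `l`, a change of the shift by less than `δ(q)` changes the integer part only for a proportion
`1/q + 1/M_l` of each row of the box (`box_bad`); so countably many good shifts suffice for all shifts.
-/

namespace Pool.Agent.Results.MP_f720ae_an.BeattyBoxes

open MeasureTheory Filter Finset

universe u

theorem result (X : Type u) [MeasurableSpace X] (μ : Measure X) [IsProbabilityMeasure μ] (k n : ℕ)
    (T : Fin n → Equiv.Perm X) (c : Fin n → Fin k → ℝ) (f : Fin n → X → ℂ)
    (hT : ∀ j, MeasurePreserving (T j) μ μ) (hT' : ∀ j, Measurable ((T j)⁻¹ : Equiv.Perm X)) (hc : ∀ j, c j ≠ 0)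
    (hf : ∀ j, AEStronglyMeasurable (f j) μ) (hfb : ∀ j, ∃ C : ℝ, ∀ᵐ x ∂μ, ‖f j x‖ ≤ C) :
    ∀ᵐ a : Fin n → ℝ, ∀ᵐ x ∂μ, ∀ b : Fin n → ℝ,
      Tendsto (fun M : Fin k → ℕ => (1 / ((∏ l, M l : ℕ) : ℂ)) * ∑ m ∈ Fintype.piFinset (fun l => Icc 1 (M l)),
        ∏ j, f j (((T j) ^ ⌊a j * ∑ l, c j l * (m l : ℝ) + b j⌋ : Equiv.Perm X) x)) atTop
        (nhds (∏ j, (μ[f j | MeasurableSpace.invariants (T j)]) x)) :=
  Pool.Agent.Q182.BB.beatty_boxes hT hT' hc hf hfb

end Pool.Agent.Results.MP_f720ae_an.BeattyBoxes
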