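import Pool.Agent.Q183.LM.Mes

set_option autoImplicit false

/-!
# The Furstenberg–Bergelson–Leibman conjecture is equivalent to its case of commutators

For all numbers `n` of functions and `k` of variables, the almost everywhere convergence of the nilpotent
polynomial averages over boxes (all polynomials, all nilpotent groups) is equivalent to that of the
averages of `∏ f_j ([σ(m), V_j] x)`, where `σ` is a measure preserving action of `ℤ^k` and `V_1, ..., V_n`
are measure preserving maps, which generate together a nilpotent group. In such averages all the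
exponents are `m_i`, `-m_i`, `1` and `-1`. More precisely, class at most `c` and polynomials of degree at
most `D` (for instance commuting maps, `c = 1`) reduce to commutators in groups of class at most
`c (D + 1)`.

Proof. The polynomial maps `g : ℤ^k → G` form a group (Lazard, Leibman; proved in
`Pool.Agent.Q183.LM.Pol`), which together with the shifts generates a nilpotent group of class at most
`c (D + 1)`. It acts on the space of the maps `ℤ^k → X` with the product measure: `σ` is the shift, and a
map `g` acts by `(V y)_i = g(i) y_i`. Then `([σ(m), V] y)_0 = g(m) g(0)⁻¹ y_0`.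
-/

open MeasureTheory Filter Topology
open scoped ENNReal commutatorElement

namespace Pool.Agent.Results.MP_f720ae_an.CommutatorAverages

/-- The average over the box `[M_1] × ⋯ × [M_k]` of `∏ f_j (g_j(m) x)`. -/
noncomputable def avg {X : Type} {n k : ℕ} (f : Fin n → X → ℂ)
    (g : Fin n → (Fin k → ℤ) → Equiv.Perm X) (M : Fin k → ℕ) (x : X) : ℂ :=
  (∏ i, (M i : ℂ))⁻¹ * ∑ m ∈ Fintype.piFinset (fun i => Finset.Icc 1 (M i)),
    ∏ j : Fin n, f j (g j (fun i => (m i : ℤ)) x)

/-- The averages of all tuples of `L^∞` functions converge almost everywhere, when all the `M_i` tend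
to infinity independently. -/
def Conv {X : Type} [MeasurableSpace X] (μ : Measure X) {n k : ℕ}
    (g : Fin n → (Fin k → ℤ) → Equiv.Perm X) : Prop :=
  ∀ f : Fin n → X → ℂ, (∀ j, MemLp (f j) ∞ μ) →
    ∀ᵐ x ∂μ, ∃ L : ℂ, Tendsto (fun M : Fin k → ℕ => avg f g M x) atTop (𝓝 L)

/-- The maps in `W` are invertible and measure preserving, and generate a nilpotent group of class at
most `c`. -/
structure NilFamily {X : Type} [MeasurableSpace X] (μ : Measure X) (W : Set (Equiv.Perm X)) (c : ℕ) :
    Prop where
  inverse : ∀ T ∈ W, Measurable ⇑T.symm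
  preserving : ∀ T ∈ W, MeasurePreserving (⇑T) μ μ
  nilpotent : (Subgroup.closure W).lowerCentralSeries c = ⊥

/-- `S_j(m) = T_1^(P_1j(m)) ⋯ T_d^(P_dj(m))`. -/
noncomputable def word {X : Type} {d n k : ℕ} (T : Fin d → Equiv.Perm X)
    (P : Fin d → Fin n → MvPolynomial (Fin k) ℤ) (j : Fin n) (m : Fin k → ℤ) : Equiv.Perm X :=
  (List.ofFn fun i : Fin d => T i ^ MvPolynomial.eval m (P i j)).prod

/-- The question (Q1), for `n` functions and `k` variables. -/
def Question (n k : ℕ) : Prop :=
  ∀ (X : Type) [MeasurableSpace X] (μ : Measure X) [IsProbabilityMeasure μ] (d : ℕ)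
    (T : Fin d → Equiv.Perm X), (∀ i, Measurable ⇑(T i).symm) →
    (∀ i, MeasurePreserving (⇑(T i)) μ μ) → Group.IsNilpotent (Subgroup.closure (Set.range T)) →
    ∀ P : Fin d → Fin n → MvPolynomial (Fin k) ℤ, Conv μ (word T P)

/-- The question for `n` functions, `k` variables, class at most `c` and total degrees at most `D`. -/
def PolyQuestion (n k c D : ℕ) : Prop :=
  ∀ (X : Type) [MeasurableSpace X] (μ : Measure X) [IsProbabilityMeasure μ] (d : ℕ)
    (T : Fin d → Equiv.Perm X), NilFamily μ (Set.range T) c →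
    ∀ P : Fin d → Fin n → MvPolynomial (Fin k) ℤ, (∀ i j, (P i j).totalDegree ≤ D) →
      Conv μ (word T P)

/-- The averages of `∏ f_j ([σ(m), V_j] x)`, where the action `σ` of `ℤ^k` and `V_1, ..., V_n` generate a
nilpotent group of class at most `c`; here `[a, b] = a b a⁻¹ b⁻¹`. -/
def CommutatorQuestion (n k c : ℕ) : Prop :=
  ∀ (X : Type) [MeasurableSpace X] (μ : Measure X) [IsProbabilityMeasure μ]
    (σ : Multiplicative (Fin k → ℤ) →* Equiv.Perm X) (V : Fin n → Equiv.Perm X),
    NilFamily μ (Set.range σ ∪ Set.range V) c →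
    Conv μ (fun (j : Fin n) (m : Fin k → ℤ) => ⁅σ (Multiplicative.ofAdd m), V j⁆)

theorem conv_of_meas {X : Type} [MeasurableSpace X] {μ : Measure X} {n k : ℕ}
    {g : Fin n → (Fin k → ℤ) → Equiv.Perm X} (hg : ∀ j m, MeasurePreserving (g j m) μ μ)
    (h : ∀ f : Fin n → X → ℂ, (∀ j, MemLp (f j) ∞ μ) → (∀ j, Measurable (f j)) →
      ∀ᵐ x ∂μ, ∃ L : ℂ, Tendsto (fun M : Fin k → ℕ => avg f g M x) atTop (𝓝 L)) : Conv μ g := by
  intro f hf
  have h1 := h (fun j => (hf j).1.mk (f j)) (fun j => (memLp_congr_ae (hf j).1.ae_eq_mk).1 (hf j))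
    (fun j => (hf j).1.stronglyMeasurable_mk.measurable)
  have h2 : ∀ᵐ x ∂μ, ∀ (j : Fin n) (m : Fin k → ℤ), f j (g j m x) = (hf j).1.mk (f j) (g j m x) := by
    rw [ae_all_iff]
    intro j
    rw [ae_all_iff]
    intro m
    exact (hg j m).quasiMeasurePreserving.ae (hf j).1.ae_eq_mk
  filter_upwards [h1, h2] with x hx1 hx2
  obtain ⟨L, hL⟩ := hx1
  refine ⟨L, ?_⟩
  have e : (fun M : Fin k → ℕ => avg f g M x) =
      (fun M : Fin k → ℕ => avg (fun j => (hf j).1.mk (f j)) g M x) := by
    funext M
    unfold avg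
    congr 1
    apply Finset.sum_congr rfl
    intro m _
    apply Finset.prod_congr rfl
    intro j _
    exact hx2 j _
  rw [e]
  exact hL

/-- the extension -/
theorem poly_of_comm {n k c D : ℕ} (hc : 1 ≤ c) (h : CommutatorQuestion n k (c * (D + 1))) :
    PolyQuestion n k c D := by
  intro X _ μ _ d T hT P hPD
  set S0 : Subgroup (Equiv.Perm X) := Subgroup.closure (Set.range T) with hS0
  have he : 1 ≤ D + 1 := by omega
  have hTm : ∀ i, T i ∈ Q183.LM.MP μ := fun i => ⟨hT.inverse _ ⟨i, rfl⟩, hT.preserving _ ⟨i, rfl⟩⟩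
  have hS0m : S0 ≤ Q183.LM.MP μ := by
    rw [hS0, Subgroup.closure_le]
    rintro _ ⟨i, rfl⟩
    exact hTm i
  have hTS : ∀ i, T i ∈ S0 := fun i => Subgroup.subset_closure ⟨i, rfl⟩
  have hg : ∀ j, (fun m => word T P j m) ∈ Q183.LM.PolG (Fin k → ℤ) (Q183.LM.Fil S0 (D + 1))
      Q183.LM.Fil_anti (Q183.LM.Fil_comm he) 1 := fun j =>
    Q183.LM.word_PolG he hTS (p := fun i m => MvPolynomial.eval m (P i j)) fun i =>
      Q183.LM.PF_mv (hPD i j)
  have hgS : ∀ j m, word T P j m ∈ S0 := by
    intro j m
    unfold word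
    apply list_prod_mem
    intro x hx
    rw [List.mem_ofFn] at hx
    obtain ⟨i, rfl⟩ := hx
    exact S0.zpow_mem (hTS i) _
  -- normalized at zero
  set g' : Fin n → (Fin k → ℤ) → Equiv.Perm X := fun j m => (word T P j 0)⁻¹ * word T P j m with hg'
  have hg'P : ∀ j, g' j ∈ Q183.LM.PolG (Fin k → ℤ) (Q183.LM.Fil S0 (D + 1))
      Q183.LM.Fil_anti (Q183.LM.Fil_comm he) 1 := fun j =>
    mul_mem (Q183.LM.const_PolG he (S0.inv_mem (hgS j 0))) (hg j)
  have hg'S : ∀ j m, g' j m ∈ S0 := fun j m => S0.mul_mem (S0.inv_mem (hgS j 0)) (hgS j m)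
  -- the extension
  set σ : Multiplicative (Fin k → ℤ) →* Equiv.Perm ((Fin k → ℤ) → X) :=
    { toFun := fun l => Q183.LM.Th 1 (Multiplicative.toAdd l)
      map_one' := Q183.LM.Th_one
      map_mul' := fun a b => by
        rw [Q183.LM.Th_mul]
        congr 1 } with hσ
  set V : Fin n → Equiv.Perm ((Fin k → ℤ) → X) := fun j => Q183.LM.Th (g' j) 0 with hV
  set ν : Measure ((Fin k → ℤ) → X) := Measure.infinitePi (fun _ : Fin k → ℤ => μ) with hν
  have hσm : ∀ l, σ l ∈ Q183.LM.MP ν := fun l => Q183.LM.Th_mp μ (fun _ => one_mem _) _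
  have hVm : ∀ j, V j ∈ Q183.LM.MP ν := fun j => Q183.LM.Th_mp μ (fun m => hS0m (hg'S j m)) 0
  have hsys : NilFamily ν (Set.range σ ∪ Set.range V) (c * (D + 1)) := by
    refine ⟨?_, ?_, ?_⟩
    · rintro _ (⟨l, rfl⟩ | ⟨j, rfl⟩)
      · exact (hσm l).1
      · exact (hVm j).1
    · rintro _ (⟨l, rfl⟩ | ⟨j, rfl⟩)
      · exact (hσm l).2
      · exact (hVm j).2
    · have hle : Subgroup.closure (Set.range σ ∪ Set.range V) ≤
          Q183.LM.L0 (Fin k → ℤ) S0 (D + 1) he := by
        rw [Subgroup.closure_le]
        rintro _ (⟨l, rfl⟩ | ⟨j, rfl⟩)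
        · exact ⟨Multiplicative.toAdd l, 1, one_mem _, rfl⟩
        · exact ⟨0, _, hg'P j, rfl⟩
      rw [eq_bot_iff, ← Q183.LM.lcs_bot (Λ := Fin k → ℤ) he hc hT.nilpotent]
      exact Subgroup.lowerCentralSeries_mono _ hle
  have hconv := h ((Fin k → ℤ) → X) ν σ V hsys
  -- the commutators
  have hcom : ∀ (j : Fin n) (m : Fin k → ℤ) (y : (Fin k → ℤ) → X),
      (⁅σ (Multiplicative.ofAdd m), V j⁆ : Equiv.Perm ((Fin k → ℤ) → X)) y 0 = g' j m (y 0) := by
    intro j m y
    have h1 : ⁅σ (Multiplicative.ofAdd m), V j⁆ =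
        (σ (Multiplicative.ofAdd m) * V j) * (V j * σ (Multiplicative.ofAdd m))⁻¹ := by
      rw [commutatorElement_def]
      group
    have h2 : σ (Multiplicative.ofAdd m) = Q183.LM.Th 1 m := rfl
    rw [h1, h2, hV]
    simp only
    rw [Q183.LM.Th_mul, Q183.LM.Th_mul, add_comm m 0, Q183.LM.Th_div, Q183.LM.Th_apply]
    simp only [Pi.mul_apply, Pi.inv_apply, Q183.LM.sh, zero_add, add_zero, one_mul, Pi.one_apply,
      mul_one, mul_inv_rev, inv_one]
    have h3 : g' j 0 = 1 := by
      rw [hg']
      simp
    rw [h3, inv_one, mul_one]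
  have hev : MeasurePreserving (Function.eval (0 : Fin k → ℤ)) ν μ :=
    measurePreserving_eval_infinitePi (fun _ : Fin k → ℤ => μ) 0
  apply conv_of_meas (fun j m => (hS0m (hgS j m)).2)
  intro f hf hfm
  have h1 := hconv (fun j y => f j (word T P j 0 (y 0))) (fun j =>
    ((hf j).comp_measurePreserving (hS0m (hgS j 0)).2).comp_measurePreserving hev)
  have e : ∀ (M : Fin k → ℕ) (y : (Fin k → ℤ) → X), avg (fun j y => f j (word T P j 0 (y 0)))
      (fun (j : Fin n) (m : Fin k → ℤ) => ⁅σ (Multiplicative.ofAdd m), V j⁆)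
      M y = avg f (word T P) M (y 0) := by
    intro M y
    unfold avg
    congr 1
    apply Finset.sum_congr rfl
    intro m _
    apply Finset.prod_congr rfl
    intro j _
    show f j (word T P j 0 ((⁅σ (Multiplicative.ofAdd fun i => (m i : ℤ)), V j⁆ :
      Equiv.Perm ((Fin k → ℤ) → X)) y 0)) = _
    rw [hcom, hg']
    simp only
    rw [← Equiv.Perm.mul_apply, mul_inv_cancel_left]
  simp only [e] at h1
  have hmeas : MeasurableSet {x : X | ∃ L : ℂ, Tendsto (fun M : Fin k → ℕ => avg f (word T P) M x)
      atTop (𝓝 L)} := by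
    apply measurableSet_exists_tendsto
    intro M
    unfold avg
    apply Measurable.const_mul
    apply Finset.measurable_sum
    intro m _
    apply Finset.measurable_prod
    intro j _
    exact (hfm j).comp (hS0m (hgS j _)).2.measurable
  have h2 := ae_map_iff (μ := ν) hev.measurable.aemeasurable hmeas
  rw [hev.map_eq] at h2
  exact h2.2 h1

theorem prod_single {G : Type} [Group G] (A : G) : ∀ {m : ℕ} (j : Fin m),
    (List.ofFn fun i : Fin m => if i = j then A else 1).prod = A := by
  intro m
  induction m with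
  | zero => intro j; exact j.elim0
  | succ m ih =>
    intro j
    rw [List.ofFn_succ, List.prod_cons]
    by_cases hj : j = 0
    · subst hj
      rw [if_pos rfl]
      have h3 : (List.ofFn fun i : Fin m => if i.succ = (0 : Fin (m + 1)) then A else 1).prod
          = 1 := by
        apply List.prod_eq_one
        intro x hx
        rw [List.mem_ofFn] at hx
        obtain ⟨i, rfl⟩ := hx
        rw [if_neg (Fin.succ_ne_zero i)]
      rw [h3, mul_one]
    · obtain ⟨j', rfl⟩ := Fin.exists_succ_eq.2 hj
      rw [if_neg (Ne.symm (Fin.succ_ne_zero j')), one_mul]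
      have h3 := ih j'
      have h4 : (fun i : Fin m => if i.succ = j'.succ then A else 1) =
          (fun i : Fin m => if i = j' then A else 1) := by
        funext i
        by_cases hij : i = j'
        · subst hij
          simp
        · rw [if_neg hij, if_neg (fun hh => hij (Fin.succ_injective _ hh))]
      rw [h4]
      exact h3

/-- an action of `ℤ^k` in terms of its generators -/
theorem action_word {G : Type} [Group G] {k : ℕ} (σ : Multiplicative (Fin k → ℤ) →* G)
    (m : Fin k → ℤ) :
    (List.ofFn fun i : Fin k => σ (Multiplicative.ofAdd (Pi.single i 1)) ^ m i).prod =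
      σ (Multiplicative.ofAdd m) := by
  have h1 : (List.ofFn fun i : Fin k => σ (Multiplicative.ofAdd (Pi.single i 1)) ^ m i) =
      (List.ofFn fun i : Fin k =>
        (Multiplicative.ofAdd (Pi.single i 1 : Fin k → ℤ)) ^ m i).map σ := by
    rw [List.map_ofFn]
    congr 1
    funext i
    simp
  rw [h1, ← map_list_prod, List.prod_ofFn]
  congr 1
  have h2 : ∀ i, (Multiplicative.ofAdd (Pi.single i 1 : Fin k → ℤ)) ^ m i =
      Multiplicative.ofAdd (Pi.single i (m i) : Fin k → ℤ) := by
    intro i
    rw [← ofAdd_zsmul]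
    congr 1
    rw [← Pi.single_smul]
    simp
  simp only [h2]
  rw [← ofAdd_sum]
  congr 1
  exact Finset.univ_sum_single m

theorem comm_of_question {n k : ℕ} (h : Question n k) (c : ℕ) : CommutatorQuestion n k c := by
  intro X _ μ _ σ V hW
  set S : Fin k → Equiv.Perm X := fun i => σ (Multiplicative.ofAdd (Pi.single i 1)) with hS
  set T : Fin ((k + n) + (k + n)) → Equiv.Perm X := Fin.append (Fin.append S V) (Fin.append S V)
    with hT
  have hTW : ∀ i, T i ∈ Set.range σ ∪ Set.range V := by
    intro i
    rw [hT]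
    refine Fin.addCases (fun a => ?_) (fun a => ?_) i
    · rw [Fin.append_left]
      refine Fin.addCases (fun b => ?_) (fun b => ?_) a
      · rw [Fin.append_left]
        exact Or.inl ⟨_, rfl⟩
      · rw [Fin.append_right]
        exact Or.inr ⟨_, rfl⟩
    · rw [Fin.append_right]
      refine Fin.addCases (fun b => ?_) (fun b => ?_) a
      · rw [Fin.append_left]
        exact Or.inl ⟨_, rfl⟩
      · rw [Fin.append_right]
        exact Or.inr ⟨_, rfl⟩
  have hnil : Group.IsNilpotent (Subgroup.closure (Set.range T)) := by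
    rw [Subgroup.isNilpotent_iff_lowerCentralSeries]
    refine ⟨c, ?_⟩
    rw [eq_bot_iff, ← hW.nilpotent]
    apply Subgroup.lowerCentralSeries_mono
    apply Subgroup.closure_mono
    rintro _ ⟨i, rfl⟩
    exact hTW i
  set P : Fin ((k + n) + (k + n)) → Fin n → MvPolynomial (Fin k) ℤ := fun i j =>
    (Fin.append
      (Fin.append (fun b : Fin k => (MvPolynomial.X b : MvPolynomial (Fin k) ℤ))
        (fun b : Fin n => if b = j then 1 else 0))
      (Fin.append (fun b : Fin k => -(MvPolynomial.X b : MvPolynomial (Fin k) ℤ))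
        (fun b : Fin n => if b = j then -1 else 0))) i with hP
  have h1 := h X μ _ T (fun i => hW.inverse _ (hTW i)) (fun i => hW.preserving _ (hTW i)) hnil P
  have e : word T P = (fun (j : Fin n) (m : Fin k → ℤ) => ⁅σ (Multiplicative.ofAdd m), V j⁆) := by
    funext j m
    unfold word
    have h2 : (fun i : Fin ((k + n) + (k + n)) => T i ^ MvPolynomial.eval m (P i j)) =
        Fin.append
          (Fin.append (fun b : Fin k => S b ^ m b) (fun b : Fin n => if b = j then V j else 1))
          (Fin.append (fun b : Fin k => S b ^ (-m) b)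
            (fun b : Fin n => if b = j then (V j)⁻¹ else 1)) := by
      funext i
      rw [hT, hP]
      simp only
      refine Fin.addCases (fun a => ?_) (fun a => ?_) i
      · simp only [Fin.append_left]
        refine Fin.addCases (fun b => ?_) (fun b => ?_) a
        · simp only [Fin.append_left]
          simp
        · simp only [Fin.append_right]
          by_cases hb : b = j
          · subst hb
            simp
          · rw [if_neg hb, if_neg hb]
            simp
      · simp only [Fin.append_right]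
        refine Fin.addCases (fun b => ?_) (fun b => ?_) a
        · simp only [Fin.append_left]
          simp
        · simp only [Fin.append_right]
          by_cases hb : b = j
          · subst hb
            simp
          · rw [if_neg hb, if_neg hb]
            simp
    rw [h2, List.ofFn_fin_append, List.ofFn_fin_append, List.ofFn_fin_append, List.prod_append,
      List.prod_append, List.prod_append, prod_single, prod_single, hS, action_word, action_word,
      commutatorElement_def, ofAdd_neg, map_inv, mul_assoc, mul_assoc, mul_assoc]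
  rw [e] at h1
  exact h1

/-- **Commutators suffice for the conjecture.** -/
theorem result :
    -- (1) class at most `c` and degree at most `D` reduce to commutators in class at most `c (D + 1)`
    (∀ n k c D : ℕ, 1 ≤ c → CommutatorQuestion n k (c * (D + 1)) → PolyQuestion n k c D) ∧
    -- (2) the question is equivalent to the case of commutators
    (∀ n k : ℕ, Question n k ↔ ∀ c, CommutatorQuestion n k c) := by
  refine ⟨fun n k c D hc h => poly_of_comm hc h, fun n k => ⟨fun h c => comm_of_question h c, ?_⟩⟩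
  intro h X _ μ _ d T hT1 hT2 hT3 P
  obtain ⟨c, hc⟩ := (Subgroup.isNilpotent_iff_lowerCentralSeries _).1 hT3
  have hc' : (Subgroup.closure (Set.range T)).lowerCentralSeries (c + 1) = ⊥ := by
    rw [eq_bot_iff, ← hc]
    exact Subgroup.lowerCentralSeries_antitone _ (Nat.le_succ c)
  obtain ⟨D, hD⟩ : ∃ D, ∀ (i : Fin d) (j : Fin n), (P i j).totalDegree ≤ D := by
    refine ⟨∑ i' : Fin d, ∑ j' : Fin n, (P i' j').totalDegree, fun i j => ?_⟩
    exact (Finset.single_le_sum (f := fun j' : Fin n => (P i j').totalDegree)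
      (fun _ _ => Nat.zero_le _) (Finset.mem_univ j)).trans (Finset.single_le_sum
        (f := fun i' : Fin d => ∑ j' : Fin n, (P i' j').totalDegree) (fun _ _ => Nat.zero_le _)
        (Finset.mem_univ i))
  refine poly_of_comm (c := c + 1) (by omega) (h _) X μ d T ⟨?_, ?_, hc'⟩ P hD
  · rintro _ ⟨i, rfl⟩
    exact hT1 i
  · rintro _ ⟨i, rfl⟩
    exact hT2 i

end Pool.Agent.Results.MP_f720ae_an.CommutatorAverages
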