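import Pool.Agent.Q183.ZL.Susp
import Pool.Agent.TH784.AA.Fin

/-!
# Several maps and the time maps of their suspension flows

Let `T_1, ..., T_m` be invertible measure preserving maps of a probability space `X`, and for real `a` let
`T_j^(a)(s, x) = (s + a e_j, T_j^⌊{s_j} + a⌋ x)` on the product of the torus `(ℝ/ℤ)^m` and `X`: the time `a` map of the
suspension flow of `T_j` along the coordinate `j`. If the `T_j` commute, so do the `T_j^(a)`. The product
`∏ F_j((T_j^(a))^n (s, x))` is `∏ F_j(s + n a e_j, T_j^⌊{s_j} + n a⌋ x)`.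

1. The averages of `∏ f_j(T_j^n x)`, `1 ≤ n ≤ N`, converge almost everywhere for all `f_j` in `L^∞` if and only if those
   of the maps `T_j^(a)` do, for almost every `a > 0`; and if and only if they do for some `a > 0`.
2. If the `T_j` are commuting affine bijections of a compact metrizable abelian group, then for almost every `a > 0` the
   averages of the commuting maps `T_j^(a)` converge almost everywhere, for all functions in `L^∞`.
-/

set_option autoImplicit false

namespace Pool.Agent.Results.MP_f720ae_an.CommutingSuspensions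

open MeasureTheory Filter Finset Topology
open scoped ENNReal

universe u

/-- convergence almost everywhere of the averages of `∏ f_j (T_j^n x)`, `1 ≤ n ≤ N`, for all `f_j` in `L^∞` -/
def Conv {X : Type u} [MeasurableSpace X] {m : ℕ} (μ : Measure X) (T : Fin m → X → X) : Prop :=
  ∀ f : Fin m → X → ℂ, (∀ j, MemLp (f j) ∞ μ) → ∀ᵐ x ∂μ, ∃ L : ℂ,
    Tendsto (fun N : ℕ => (1 / (N : ℂ)) * ∑ n ∈ Icc 1 N, ∏ j : Fin m, f j ((T j)^[n] x)) atTop (𝓝 L)

/-- the time `a` map of the suspension flow of `T j` along the coordinate `j`; `AddCircle.equivIco 1 0 s` is the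
representative of `s` in `[0, 1)` -/
noncomputable def sus {X : Type u} {m : ℕ} (T : Fin m → Equiv.Perm X) (a : ℝ) (j : Fin m)
    (p : (Fin m → AddCircle (1 : ℝ)) × X) : (Fin m → AddCircle (1 : ℝ)) × X :=
  (fun i => if i = j then p.1 i + (a : AddCircle (1 : ℝ)) else p.1 i,
    (T j ^ ⌊(AddCircle.equivIco 1 0 (p.1 j) : ℝ) + a⌋ : Equiv.Perm X) p.2)

theorem sus_eq {X : Type u} {m : ℕ} (T : Fin m → Equiv.Perm X) (a : ℝ) (j : Fin m) :
    sus T a j = Pool.Agent.Q183.ZL.msus T j a := by
  funext p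
  unfold sus Pool.Agent.Q183.ZL.msus
  refine Prod.ext ?_ rfl
  funext i
  simp only [Pi.add_apply, Pool.Agent.Q183.ZL.sg]
  split_ifs
  · rfl
  · rw [add_zero]

theorem conv_iff {X : Type u} [MeasurableSpace X] {μ : Measure X} [IsProbabilityMeasure μ] {m : ℕ} {T : Fin m → X → X}
    (hT : ∀ j, MeasurePreserving (T j) μ μ) : Conv μ T ↔ Pool.Agent.Q183.ZL.CvgAll μ T := by
  have e : ∀ (f : Fin m → X → ℂ) (x : X),
      Pool.Agent.W761.Tail.A (fun n => Pool.Agent.Q183.ZL.term T f n x) = fun N : ℕ =>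
        (1 / (N : ℂ)) * ∑ n ∈ Icc 1 N, ∏ j : Fin m, f j ((T j)^[n] x) := fun f x =>
    funext fun N => Pool.Agent.Q183.CF.A_Icc (fun n => ∏ j, f j ((T j)^[n] x)) N
  constructor
  · intro h f hf
    have h1 := h f fun j => (hf j).memLp
    filter_upwards [h1] with x hx
    obtain ⟨L, hL⟩ := hx
    exact ⟨L, by rw [e]; exact hL⟩
  · intro h f hf
    choose g hg hfg using fun j => Pool.Agent.Q183.CF.bme_of_memLp (hf j)
    have h1 := Pool.Agent.Q183.ZL.Cvg_congr hT (fun j => (hfg j).symm) (h g hg)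
    filter_upwards [h1] with x hx
    obtain ⟨L, hL⟩ := hx
    exact ⟨L, by rw [e] at hL; exact hL⟩

theorem key {X : Type u} [MeasurableSpace X] [MeasurableSpace.CountablyGenerated X] {μ : Measure X}
    [IsProbabilityMeasure μ] {m : ℕ} {T : Fin m → Equiv.Perm X} (hT : ∀ j, MeasurePreserving (T j) μ μ)
    (hTm : ∀ j, Measurable (T j).symm) (h : Conv μ (fun j => T j)) :
    ∀ᵐ a : ℝ, 0 < a → Conv ((volume : Measure (Fin m → AddCircle (1 : ℝ))).prod μ) (sus T a) := by
  have hτ := fun j => Pool.Agent.Q183.ZL.msus_flow hT hTm j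
  have h1 := Pool.Agent.Q183.ZL.cvg_one hT ((conv_iff hT).1 h)
  have h2 := Pool.Agent.Q183.ZL.ccvgAll_of_one hτ one_pos h1
  filter_upwards [Pool.Agent.Q183.ZL.cvgAll_of_ccvgAll hτ h2] with a ha ha0
  have e : sus T a = fun j => Pool.Agent.Q183.ZL.msus T j a := funext fun j => sus_eq T a j
  rw [e]
  exact (conv_iff fun j => (hτ j).mp a).2 (ha ha0)

theorem ofFn_single {M : Type u} [Monoid M] (g : M) : ∀ {m : ℕ} (j : Fin m),
    (List.ofFn fun i : Fin m => if i = j then g else (1 : M)).prod = g := by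
  intro m
  induction m with
  | zero => exact fun j => j.elim0
  | succ m ih =>
    intro j
    rw [List.ofFn_succ, List.prod_cons]
    refine Fin.cases ?_ (fun j' => ?_) j
    · rw [if_pos rfl]
      have e : (fun i : Fin m => if i.succ = 0 then g else (1 : M)) = fun _ => 1 :=
        funext fun i => if_neg (Fin.succ_ne_zero i)
      rw [e, List.ofFn_const, List.prod_replicate, one_pow, mul_one]
    · rw [if_neg (Fin.succ_ne_zero j').symm, one_mul]
      have e : (fun i : Fin m => if i.succ = j'.succ then g else (1 : M)) = fun i => if i = j' then g else 1 := by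
        funext i
        simp only [Fin.succ_inj]
      rw [e]
      exact ih j'

/-- affine bijections -/
theorem affine {X : Type} [CommGroup X] [TopologicalSpace X] [IsTopologicalGroup X] [CompactSpace X] [T2Space X]
    [MeasurableSpace X] [BorelSpace X] (μ : Measure X) [μ.IsHaarMeasure] [IsProbabilityMeasure μ] {m : ℕ}
    (T : Fin m → Equiv.Perm X) (hT : ∀ i, ∃ (α : X →ₜ* X) (c : X), ∀ x, T i x = α x * c)
    (hc : ∀ i j, Commute (T i) (T j)) : Conv μ (fun j => T j) := by
  have hmp : ∀ i, MeasurePreserving (T i) μ μ := fun i => Pool.Agent.TH784.AA.IsAff.mp (hT i)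
  refine (conv_iff hmp).2 fun f hf => ?_
  have h1 := Pool.Agent.TH784.AA.affine_conv (μ := μ) (k := 1) hT hc
    (fun i j => if i = j then 1 else 0) (fun i j _ => if i = j then 1 else 0) (f := f) hf
  filter_upwards [h1] with x hx
  obtain ⟨L, hL⟩ := hx
  have hN : Tendsto (fun (N : ℕ) (_ : Fin 1) => N) atTop atTop :=
    tendsto_atTop_atTop.2 fun b => ⟨b 0, fun N hN j => by
      rw [Subsingleton.elim j 0]
      exact hN⟩
  refine ⟨L, (hL.comp hN).congr fun N => ?_⟩
  simp only [Function.comp_apply, Pool.Agent.W761.Box.bxc, Pool.Agent.W761.Tail.A, Fin.prod_univ_one]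
  congr 1
  refine Finset.sum_nbij' (fun m => m 0) (fun n _ => n) ?_ ?_ ?_ ?_ ?_
  · intro k hk
    exact Fintype.mem_piFinset.1 hk 0
  · intro n hn
    exact Fintype.mem_piFinset.2 fun _ => hn
  · intro k _
    funext j
    rw [Subsingleton.elim j 0]
  · intro n _
    rfl
  · intro k _
    unfold Pool.Agent.Q183.ZL.term
    refine Finset.prod_congr rfl fun j _ => ?_
    congr 1
    have e : (fun i : Fin m => T i ^ ((if i = j then (1 : ℤ) else 0) +
        ∑ l : Fin 1, ((k l : ℕ) : ℤ) * (if i = j then (1 : ℤ) else 0))) =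
        fun i : Fin m => if i = j then T j ^ (k 0 + 1) else 1 := by
      funext i
      by_cases hij : i = j
      · subst hij
        simp only [if_true, Fin.sum_univ_one, mul_one]
        rw [add_comm, ← zpow_natCast]
        push_cast
        rfl
      · simp [hij]
    rw [e]
    have e2 : (List.ofFn fun i : Fin m => if i = j then T j ^ (k 0 + 1) else (1 : Equiv.Perm X)).prod =
        T j ^ (k 0 + 1) := ofFn_single _ j
    rw [e2]
    exact congrFun (Equiv.Perm.coe_pow _ _) x

theorem result :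
    (∀ (X : Type u) [MeasurableSpace X] [MeasurableSpace.CountablyGenerated X] (μ : Measure X)
      [IsProbabilityMeasure μ] (m : ℕ) (T : Fin m → Equiv.Perm X), (∀ j, MeasurePreserving (T j) μ μ) →
      (∀ j, Measurable (T j).symm) → 1 ≤ m →
      (Conv μ (fun j => T j) ↔
        ∀ᵐ a : ℝ, 0 < a → Conv ((volume : Measure (Fin m → AddCircle (1 : ℝ))).prod μ) (sus T a)) ∧
      (Conv μ (fun j => T j) ↔
        ∃ a : ℝ, 0 < a ∧ Conv ((volume : Measure (Fin m → AddCircle (1 : ℝ))).prod μ) (sus T a))) ∧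
    (∀ (X : Type u) (m : ℕ) (T : Fin m → Equiv.Perm X), (∀ i j, Commute (T i) (T j)) →
      ∀ (a : ℝ) (i j : Fin m), sus T a i ∘ sus T a j = sus T a j ∘ sus T a i) ∧
    (∀ (X : Type) [CommGroup X] [TopologicalSpace X] [IsTopologicalGroup X] [CompactSpace X] [T2Space X]
      [SecondCountableTopology X] [MeasurableSpace X] [BorelSpace X] (μ : Measure X) [μ.IsHaarMeasure]
      [IsProbabilityMeasure μ] (m : ℕ) (T : Fin m → Equiv.Perm X),
      (∀ i, ∃ (α : X →ₜ* X) (c : X), ∀ x, T i x = α x * c) → (∀ i j, Commute (T i) (T j)) →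
      ∀ᵐ a : ℝ, 0 < a → Conv ((volume : Measure (Fin m → AddCircle (1 : ℝ))).prod μ) (sus T a)) := by
  refine ⟨?_, ?_, ?_⟩
  · intro X _ _ μ _ m T hT hTm hm
    have hτ := fun j => Pool.Agent.Q183.ZL.msus_flow hT hTm j
    have h3 : (∃ a : ℝ, 0 < a ∧ Conv ((volume : Measure (Fin m → AddCircle (1 : ℝ))).prod μ) (sus T a)) →
        Conv μ (fun j => T j) := by
      rintro ⟨a, ha0, ha⟩
      have e : sus T a = fun j => Pool.Agent.Q183.ZL.msus T j a := funext fun j => sus_eq T a j
      rw [e] at ha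
      have h4 := Pool.Agent.Q183.ZL.ccvgAll_of_one hτ ha0 ((conv_iff fun j => (hτ j).mp a).1 ha)
      exact (conv_iff hT).2 (Pool.Agent.Q183.ZL.cvg_of_msus hT hTm hm h4)
    refine ⟨⟨key hT hTm, fun h => ?_⟩, ⟨fun h => ?_, h3⟩⟩
    · obtain ⟨a, ha0, ha⟩ := Pool.Agent.Q183.ZL.exists_pos h
      exact h3 ⟨a, ha0, ha ha0⟩
    · obtain ⟨a, ha0, ha⟩ := Pool.Agent.Q183.ZL.exists_pos (key hT hTm h)
      exact ⟨a, ha0, ha ha0⟩
  · intro X m T hc a i j
    funext p
    simp only [Function.comp_apply, sus_eq]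
    letI : MeasurableSpace X := ⊤
    exact Pool.Agent.Q183.ZL.msus_comm hc i j a a p
  · intro X _ _ _ _ _ _ _ _ μ _ _ m T hT hc
    refine key (fun i => Pool.Agent.TH784.AA.IsAff.mp (hT i)) (fun i => ?_) (affine μ T hT hc)
    exact (Pool.Agent.TH784.AA.mp_symm (μ := μ) (hT i)).measurable

end Pool.Agent.Results.MP_f720ae_an.CommutingSuspensions
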