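import Pool.Agent.Q183.ZL.Poly

/-!
# One good time is enough: a zero-one law for the time `a` maps of several flows

Let `τ_1, ..., τ_m` be measurable measure preserving flows on a probability space with a separable measure, with no
relation between them: for instance commuting flows or flows in an action of a nilpotent Lie group, so that for every
`a` the maps `T_j = τ_j(a)` generate a nilpotent group. Consider the averages of `∏ f_j(T_j^n x)`, `1 ≤ n ≤ N`.

* If for ONE `a > 0` they converge almost everywhere for all `f_j` in `L^∞`, then they do so for almost every `a > 0`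
  (and all `f_j`), and so do the continuous averages; otherwise they do so for no `a > 0`.
* In the first case, for all `f_j` and almost every `a > 0`, the averages of `∏ f_j(T_j^(P(n)) x)` converge almost
  everywhere for every integer polynomial `P` of positive degree with positive leading coefficient, to one limit
  which depends neither on `P` nor on `a`.

The case `τ_j(t) = τ(j t)` of one flow is in `MP_9721b5_an.ZeroOneLawForFlows`.
-/

set_option autoImplicit false

namespace Pool.Agent.Results.MP_f720ae_an.OneGoodTime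

open MeasureTheory Filter Finset Topology
open scoped ENNReal

universe u

/-- a measurable measure preserving flow -/
structure IsFlow {X : Type u} [MeasurableSpace X] (μ : Measure X) (τ : ℝ → X → X) : Prop where
  meas : Measurable (fun p : ℝ × X => τ p.1 p.2)
  zero : ∀ x, τ 0 x = x
  add : ∀ s t x, τ (s + t) x = τ s (τ t x)
  mp : ∀ t, MeasurePreserving (τ t) μ μ

/-- the averages of `∏ f_j (T_j^n x)`, `1 ≤ n ≤ N` -/
noncomputable def avg {X : Type u} {m : ℕ} (T : Fin m → X → X) (f : Fin m → X → ℂ) (x : X) (N : ℕ) : ℂ :=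
  (1 / (N : ℂ)) * ∑ n ∈ Icc 1 N, ∏ j, f j ((T j)^[n] x)

/-- the averages of `∏ f_j (τ_j(v) x)`, `0 ≤ v ≤ V` -/
noncomputable def cavg {X : Type u} {m : ℕ} (τ : Fin m → ℝ → X → X) (f : Fin m → X → ℂ) (x : X) (V : ℝ) : ℂ :=
  (1 / (V : ℂ)) * ∫ v in (0 : ℝ)..V, ∏ j, f j (τ j v x)

/-- convergence almost everywhere of the averages of the maps `T_j` for all tuples of functions in `L^∞` -/
def Conv {X : Type u} [MeasurableSpace X] {m : ℕ} (μ : Measure X) (T : Fin m → X → X) : Prop :=
  ∀ f : Fin m → X → ℂ, (∀ j, MemLp (f j) ∞ μ) → ∀ᵐ x ∂μ, ∃ L : ℂ, Tendsto (avg T f x) atTop (𝓝 L)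

/-- convergence almost everywhere of the continuous averages for all tuples of functions in `L^∞` -/
def ContConv {X : Type u} [MeasurableSpace X] {m : ℕ} (μ : Measure X) (τ : Fin m → ℝ → X → X) : Prop :=
  ∀ f : Fin m → X → ℂ, (∀ j, MemLp (f j) ∞ μ) → ∀ᵐ x ∂μ, ∃ L : ℂ, Tendsto (cavg τ f x) atTop (𝓝 L)

/-- for every tuple `f` there is a function `F`, the limit of the continuous averages, such that for almost every
`a > 0` and almost every `x` the averages of `∏ f_j (τ_j(a P(n)) x)` tend to `F x` for all integer polynomials `P` of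
positive degree with positive leading coefficient -/
def PolyConv {X : Type u} [MeasurableSpace X] {m : ℕ} (μ : Measure X) (τ : Fin m → ℝ → X → X) : Prop :=
  ∀ f : Fin m → X → ℂ, (∀ j, MemLp (f j) ∞ μ) → ∃ F : X → ℂ,
    (∀ᵐ x ∂μ, Tendsto (cavg τ f x) atTop (𝓝 (F x))) ∧
    ∀ᵐ a : ℝ, 0 < a → ∀ᵐ x ∂μ, ∀ P : Polynomial ℤ, 0 < P.natDegree → 0 < P.leadingCoeff →
      Tendsto (fun N : ℕ => (1 / (N : ℂ)) * ∑ n ∈ Icc 1 N, ∏ j, f j (τ j (a * ((P.eval (n : ℤ) : ℤ) : ℝ)) x))
        atTop (𝓝 (F x))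

theorem result (X : Type u) [MeasurableSpace X] (μ : Measure X) [IsProbabilityMeasure μ] [IsSeparable μ] (m : ℕ)
    (τ : Fin m → ℝ → X → X) (hτ : ∀ j, IsFlow μ (τ j)) :
    ((∀ᵐ a : ℝ, 0 < a → Conv μ (fun j => τ j a)) ∧ ContConv μ τ ∧ PolyConv μ τ) ∨
    ((∀ a : ℝ, 0 < a → ¬ Conv μ (fun j => τ j a)) ∧ ¬ ContConv μ τ) := by
  have hτ' : ∀ j, Pool.Agent.Y957.MC.IsFlow μ (τ j) := fun j => ⟨(hτ j).meas, (hτ j).zero, (hτ j).add, (hτ j).mp⟩
  have e : ∀ (T : Fin m → X → X) (f : Fin m → X → ℂ) (x : X),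
      Pool.Agent.W761.Tail.A (fun n => Pool.Agent.Q183.ZL.term T f n x) = avg T f x := fun T f x =>
    funext fun N => Pool.Agent.Q183.CF.A_Icc (fun n => ∏ j, f j ((T j)^[n] x)) N
  have e2 : ∀ T : Fin m → X → X, Conv μ T ↔ ∀ f : Fin m → X → ℂ, (∀ j, MemLp (f j) ∞ μ) →
      Pool.Agent.Q183.ZL.Cvg μ T f := by
    intro T
    simp only [Conv, Pool.Agent.Q183.ZL.Cvg, e]
  have e3 : ContConv μ τ ↔ ∀ f : Fin m → X → ℂ, (∀ j, MemLp (f j) ∞ μ) →
      Pool.Agent.Q183.ZL.CCvg μ τ f := Iff.rfl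
  rcases Pool.Agent.Q183.ZL.zero_one hτ' with ⟨h1, h2⟩ | ⟨h1, h2⟩
  · refine Or.inl ⟨?_, e3.2 h2, fun f hf => ?_⟩
    · simp only [e2]
      exact h1
    · exact Pool.Agent.Q183.ZL.poly hτ' hf (h2 f hf)
  · refine Or.inr ⟨?_, fun h => h2 (e3.1 h)⟩
    simp only [e2]
    exact h1

end Pool.Agent.Results.MP_f720ae_an.OneGoodTime
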